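import Mathlib
import Pool.Agent.W602.RG.Stm
import Pool.Agent.Helper386.D5V.Helper386_FF_Riemann

/-!
Project RG (MP_c69980_ag, MP_5b1cbc_ag), part RIE: maps of bounded degree have homogeneous
coordinates in one finite dimensional space.
-/

set_option autoImplicit false

open FF MvPolynomial Pool.Agent.W603.LV Pool.Agent.W603.PV Pool.Agent.W602.RG

namespace Pool.Agent.W369.RG.RIE

theorem pord_supp {k L : Type} [Field k] [Field L] [Algebra k L] [IsAlgClosed k] [CharZero k]
    [IsFF k L] {n : ℕ} (f : Fin (n + 1) → L) (hf : ∃ j, f j ≠ 0) :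
    (Function.support fun P : Place k L => - pord P f).Finite := by
  obtain ⟨T, hT⟩ := exists_supp (k := k) Finset.univ f
  apply T.finite_toSet.subset
  intro P hP
  obtain ⟨j, hj, h⟩ := exists_pord P hf
  apply hT j (Finset.mem_univ j) P
  intro h0
  apply hP
  simp only
  rw [← h, h0, neg_zero]

theorem main : S_RIE := by
  intro k L _ _ _ _ _ _ n B
  obtain ⟨γ, N, hγ, -⟩ := riemann k L
  obtain ⟨P0, -⟩ := exists_place (k := k) (K := L)
  set A : Place k L →₀ ℤ := Finsupp.single P0 (B + γ + 1) with hA
  refine ⟨LL A, finDim_LL A, ?_⟩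
  intro f hf hB
  set e : Place k L →₀ ℤ := Finsupp.ofSupportFinite _ (pord_supp f hf) with he
  have he1 : ∀ P, e P = - pord P f := fun P => rfl
  have hde : ddeg e = pht k f := by
    unfold ddeg pht Finsupp.sum
    rw [← finsum_neg_distrib]
    rw [finsum_eq_sum_of_support_subset (s := e.support)]
    · refine Finset.sum_congr rfl fun P _ => ?_
      show e P * (P.deg : ℤ) = - pord P f
      rw [deg_one, he1]
      simp
    · intro P hP
      rw [Finset.mem_coe, Finsupp.mem_support_iff, he1]
      exact hP
  have hd : γ + 1 ≤ ddeg (A - e) := by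
    rw [ddeg_sub, hde, hA, ddeg_single, deg_one]
    push_cast
    linarith
  have hl : 0 < ell (A - e) := by
    have := hγ (A - e)
    linarith
  obtain ⟨φ, hφ, hφ0⟩ := exists_ne_zero_of_ell_pos hl
  refine ⟨φ, hφ0, fun j => ?_⟩
  rw [mem_LL]
  by_cases hj : f j = 0
  · left
    rw [hj, mul_zero]
  · right
    intro P
    rw [mem_LL] at hφ
    rcases hφ with h | h
    · exact absurd h hφ0
    · have h1 := h P
      rw [Finsupp.sub_apply, he1] at h1
      have h2 := pord_le P hj
      rw [P.ord_mul hφ0 hj]
      linarith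

end Pool.Agent.W369.RG.RIE
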